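import Pool.Agent.H86.KN.Step
import Pool.Agent.H27.KB.NDB
import Pool.Agent.H52.KB.Spl

/-!
# Base KN, part 3: the system of the derivatives of posterior means, uniform Taylor steps
-/

set_option autoImplicit false
set_option linter.unusedSectionVars false

open MeasureTheory Set Filter Topology
open scoped ContDiff

namespace Pool.Agent.H86.KN

open Pool.Agent.H84 Pool.Agent.H84.Sym Pool.Agent.H84.Sym.P2x Pool.Agent.H19.KL
open Pool.Agent.H73.KG Pool.Agent.H85.KG Pool.Agent.H52.KB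

theorem spl_eq55 {α : Type} (l : List α) : spl l = H55.KB.spl l := by
  induction l with
  | nil => rfl
  | cons v l ih => simp only [spl, H55.KB.spl, ih]

theorem gW_eq55 {E ι : Type} [Fintype ι] (X : ι → List ι → ℝ → E → ℝ) (N : List ι → ℝ → E → ℝ)
    (l : List ι) (s : ℝ) (θ : E) :
    gW X N l s θ = H55.KB.gN (fun k u => X k u s θ) (fun u => N u s θ) l := by
  unfold gW H55.KB.gN
  rw [spl_eq55]

variable {E : Type} [NormedAddCommGroup E] [InnerProductSpace ℝ E]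
    [FiniteDimensional ℝ E] [MeasurableSpace E] [BorelSpace E]
variable {ι κ : Type} [Fintype ι]

/-- words of the function `ψ` -/
noncomputable def NN (b : OrthonormalBasis ι ℝ E) (U ψ : E → ℝ) (l : List ι) (s : ℝ) (θ : E) : ℝ :=
  H52.KB.ND U ψ (l.map b) s θ

/-- words of the coordinates -/
noncomputable def XX (b : OrthonormalBasis ι ℝ E) (U : E → ℝ) (k : ι) (l : List ι) (s : ℝ)
    (θ : E) : ℝ :=
  H52.KB.ND U (li (b k)) (l.map b) s θ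

theorem ns_nd (b : OrthonormalBasis ι ℝ E) {U ψ : E → ℝ} {t : ℝ} (hU : PP U t) (hψ : GC ψ) :
    NS b U (NN b U ψ) (XX b U) where
  rgN l := nd_rg hU hψ _
  rgX k l := nd_rg hU (gc_lin (b k)) _
  dN l k s θ hs := rfl
  dX m l k s θ hs := rfl
  gN l s θ hs := by
    rw [gW_eq55]
    exact nd_gen_spl b hU hψ l hs θ
  gX k l s θ hs := by
    rw [gW_eq55]
    exact nd_gen_spl b hU (gc_lin (b k)) l hs θ

theorem ofFn_of_length (l : List ι) : ∃ w : Fin l.length → ι, l = List.ofFn w :=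
  ⟨l.get, (List.ofFn_get l).symm⟩

/-- uniform bounds of the words -/
theorem bds_nd (b : OrthonormalBasis ι ℝ E) {t : ℝ} (ht : 0 < t) : ∃ BX BN : ℕ → ℝ,
    ∀ U : E → ℝ, PP U t →
      (∀ k l (s : ℝ) (θ : E), 0 ≤ s → l ≠ [] → |XX b U k l s θ| ≤ BX l.length) ∧
      ∀ ψ : E → ℝ, GC ψ → ∀ l (s : ℝ) (θ : E), 0 ≤ s → l ≠ [] →
        (NN b U ψ l s θ) ^ 2 ≤ BN l.length * cv (pw U s θ) ψ ψ := by
  have h1 : ∀ n : ℕ, ∃ B : ℝ, 0 ≤ B ∧ ∀ p : ι × (Fin (n + 1) → ι), ∀ U : E → ℝ, PP U t →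
      ∀ (s : ℝ) (θ : E), 0 ≤ s → |H52.KB.ND U (li (b p.1)) ((List.ofFn p.2).map b) s θ| ≤ B :=
    fun n => H27.KB.nx_bd_fin ht (κ := ι × (Fin (n + 1) → ι)) (fun p => b p.1)
      (fun p => (List.ofFn p.2).map b) (fun p => by simp)
  have h2 : ∀ n : ℕ, ∃ B : ℝ, 0 ≤ B ∧ ∀ w : Fin (n + 1) → ι, ∀ U : E → ℝ, PP U t →
      ∀ ψ : E → ℝ, GC ψ → ∀ (s : ℝ) (θ : E), 0 ≤ s →
      (H52.KB.ND U ψ ((List.ofFn w).map b) s θ) ^ 2 ≤ B * cv (pw U s θ) ψ ψ :=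
    fun n => H27.KB.nd_bd_fin ht (κ := Fin (n + 1) → ι)
      (fun w => (List.ofFn w).map b) (fun w => by simp)
  choose BX hX0 hX using h1
  choose BN hN0 hN using h2
  refine ⟨fun n => BX (n - 1), fun n => BN (n - 1), fun U hU => ⟨?_, ?_⟩⟩
  · intro k l s θ hs hl
    obtain ⟨i, l, rfl⟩ := List.exists_cons_of_ne_nil hl
    obtain ⟨w, hw⟩ := ofFn_of_length l
    have h := hX l.length (k, Fin.cons i w) U hU s θ hs
    have e : List.ofFn (Fin.cons i w : Fin (l.length + 1) → ι) = i :: l := by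
      rw [List.ofFn_succ]
      simp only [Fin.cons_zero, Fin.cons_succ]
      rw [← hw]
    simp only [e] at h
    simpa [XX] using h
  · intro ψ hψ l s θ hs hl
    obtain ⟨i, l, rfl⟩ := List.exists_cons_of_ne_nil hl
    obtain ⟨w, hw⟩ := ofFn_of_length l
    have h := hN l.length (Fin.cons i w) U hU ψ hψ s θ hs
    have e : List.ofFn (Fin.cons i w : Fin (l.length + 1) → ι) = i :: l := by
      rw [List.ofFn_succ]
      simp only [Fin.cons_zero, Fin.cons_succ]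
      rw [← hw]
    rw [e] at h
    simpa [NN] using h

/-- the uniform Taylor step for quadratic forms in the derivatives of the mean of `ψ` -/
theorem tq_step (b : OrthonormalBasis ι ℝ E) {t : ℝ} (ht : 0 < t) (M : ℝ) (q : TQ ι κ) :
    ∃ B : ℝ, 0 ≤ B ∧ ∀ U : E → ℝ, PP U t → ∀ ψ : E → ℝ, GC ψ → ∀ ρ : κ → ℝ, (∀ k, |ρ k| ≤ M) →
      ∀ s : ℝ, 0 ≤ s →
      |EX U s (q.ev ρ (XX b U) (NN b U ψ) s) - q.ev ρ (XX b U) (NN b U ψ) 0 0| ≤
        B * cv U ψ ψ * s ∧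
      |EX U s (q.ev ρ (XX b U) (NN b U ψ) s) - q.ev ρ (XX b U) (NN b U ψ) 0 0 -
        s * q.gen.ev ρ (XX b U) (NN b U ψ) 0 0| ≤ B * cv U ψ ψ * s ^ 2 := by
  obtain ⟨BX, BN, h⟩ := bds_nd b ht
  refine ⟨q.gen.bd BX BN M + q.gen.gen.bd BX BN M,
    add_nonneg (TQ.bd_nonneg _ _ _ _) (TQ.bd_nonneg _ _ _ _), fun U hU ψ hψ ρ hρ s hs => ?_⟩
  obtain ⟨h1, h2⟩ := TQ.step hU hψ (ns_nd b hU hψ) hρ (h U hU).1 ((h U hU).2 ψ hψ) q hs
  have hc := cv_nn hU hψ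
  have a1 := TQ.bd_nonneg BX BN M q.gen
  have a2 := TQ.bd_nonneg BX BN M q.gen.gen
  constructor
  · refine h1.trans (mul_le_mul_of_nonneg_right (mul_le_mul_of_nonneg_right ?_ hc) hs)
    linarith
  · refine h2.trans (mul_le_mul_of_nonneg_right (mul_le_mul_of_nonneg_right ?_ hc) (sq_nonneg s))
    linarith

/-- the uniform Taylor step for polynomials in the derivatives of the means of the coordinates -/
theorem ta_step (b : OrthonormalBasis ι ℝ E) {t : ℝ} (ht : 0 < t) (M : ℝ) (q : TA ι κ) :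
    ∃ B : ℝ, 0 ≤ B ∧ ∀ U : E → ℝ, PP U t → ∀ ρ : κ → ℝ, (∀ k, |ρ k| ≤ M) → ∀ s : ℝ, 0 ≤ s →
      |EX U s (q.ev ρ (XX b U) s) - q.ev ρ (XX b U) 0 0| ≤ B * s ∧
      |EX U s (q.ev ρ (XX b U) s) - q.ev ρ (XX b U) 0 0 -
        s * q.gen.ev ρ (XX b U) 0 0| ≤ B * s ^ 2 := by
  obtain ⟨BX, BN, h⟩ := bds_nd b ht
  refine ⟨q.gen.bd BX M + q.gen.gen.bd BX M,
    add_nonneg (TA.bd_nonneg _ _ _) (TA.bd_nonneg _ _ _), fun U hU ρ hρ s hs => ?_⟩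
  obtain ⟨h1, h2⟩ := TA.step hU (ns_nd b hU (GC.const (H := E) 0)) hρ (h U hU).1 q hs
  have a1 := TA.bd_nonneg BX M q.gen
  have a2 := TA.bd_nonneg BX M q.gen.gen
  constructor
  · refine h1.trans (mul_le_mul_of_nonneg_right ?_ hs)
    linarith
  · refine h2.trans (mul_le_mul_of_nonneg_right ?_ (sq_nonneg s))
    linarith

/-- uniform bound of the value of a polynomial -/
theorem ta_bd (b : OrthonormalBasis ι ℝ E) {t : ℝ} (ht : 0 < t) (M : ℝ) (q : TA ι κ) :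
    ∃ B : ℝ, 0 ≤ B ∧ ∀ U : E → ℝ, PP U t → ∀ ρ : κ → ℝ, (∀ k, |ρ k| ≤ M) → ∀ (s : ℝ) (θ : E),
      0 ≤ s → |q.ev ρ (XX b U) s θ| ≤ B := by
  obtain ⟨BX, BN, h⟩ := bds_nd b ht
  exact ⟨q.bd BX M, TA.bd_nonneg _ _ _, fun U hU ρ hρ s θ hs =>
    TA.ev_le hρ (h U hU).1 q hs θ⟩

/-- uniform bound of the value of a quadratic form -/
theorem tq_bd (b : OrthonormalBasis ι ℝ E) {t : ℝ} (ht : 0 < t) (M : ℝ) (q : TQ ι κ) :
    ∃ B : ℝ, 0 ≤ B ∧ ∀ U : E → ℝ, PP U t → ∀ ψ : E → ℝ, GC ψ → ∀ ρ : κ → ℝ, (∀ k, |ρ k| ≤ M) →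
      ∀ (s : ℝ) (θ : E), 0 ≤ s → |q.ev ρ (XX b U) (NN b U ψ) s θ| ≤ B * cv (pw U s θ) ψ ψ := by
  obtain ⟨BX, BN, h⟩ := bds_nd b ht
  exact ⟨q.bd BX BN M, TQ.bd_nonneg _ _ _ _, fun U hU ψ hψ ρ hρ s θ hs =>
    TQ.ev_le hρ (h U hU).1 (V := fun s θ => cv (pw U s θ) ψ ψ)
      (fun s θ hs => cvp_nn hU hψ hs θ) ((h U hU).2 ψ hψ) q hs θ⟩

/-- the uniform Taylor step for the variance -/
theorem cv_step (b : OrthonormalBasis ι ℝ E) {t : ℝ} (ht : 0 < t) :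
    ∃ B : ℝ, 0 ≤ B ∧ ∀ U : E → ℝ, PP U t → ∀ ψ : E → ℝ, GC ψ → ∀ s : ℝ, 0 < s →
      |EX U s (fun θ => cv (pw U s θ) ψ ψ) - cv U ψ ψ + s * ∑ k, (NN b U ψ [k] 0 0) ^ 2| ≤
        B * cv U ψ ψ * s ^ 2 := by
  obtain ⟨BX, BN, h⟩ := bds_nd b ht
  refine ⟨_, TQ.bd_nonneg BX BN 0 _, fun U hU ψ hψ s hs =>
    var_step hU hψ (ns_nd b hU hψ) (h U hU).1 ((h U hU).2 ψ hψ) ?_ hs⟩
  intro k r θ hr
  exact nd_one hU hψ (b k) hr θ

end Pool.Agent.H86.KN
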