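import Pool.Agent.H86.KN.Inst

/-!
# Base KN, part 4: the near extremal argument
-/

set_option autoImplicit false
set_option linter.unusedSectionVars false

open MeasureTheory Set Filter Topology
open scoped ContDiff

namespace Pool.Agent.H86.KN

open Pool.Agent.H84 Pool.Agent.H84.Sym Pool.Agent.H84.Sym.P2x Pool.Agent.H19.KL
open Pool.Agent.H73.KG Pool.Agent.H85.KG Pool.Agent.H52.KB

variable {E : Type} [NormedAddCommGroup E] [InnerProductSpace ℝ E]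
    [FiniteDimensional ℝ E] [MeasurableSpace E] [BorelSpace E]
variable {ι κ : Type} [Fintype ι]

/-- **EXT**: if `q₁ + lam q₂ ≤ φ Var` for all posterior measures, and almost equality holds for the
original one, then the generator of `q₁ + lam q₂ - φ Var` is at most `C √ε Var` at time zero. -/
theorem ext_core (b : OrthonormalBasis ι ℝ E) {t : ℝ} (ht : 0 < t) (M : ℝ) (q₁ q₂ : TQ ι κ) :
    ∃ C : ℝ, 0 ≤ C ∧ ∀ (lam φ : ℝ), 0 ≤ lam → 0 ≤ φ → ∀ U : E → ℝ, PP U t → ∀ ψ : E → ℝ, GC ψ →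
      ∀ ρ : κ → ℝ, (∀ k, |ρ k| ≤ M) → ∀ ε : ℝ, 0 < ε →
      (∀ (s : ℝ) (θ : E), 0 < s → q₁.ev ρ (XX b U) (NN b U ψ) s θ +
        lam * q₂.ev ρ (XX b U) (NN b U ψ) s θ ≤ φ * cv (pw U s θ) ψ ψ) →
      (φ - ε) * cv U ψ ψ ≤ q₁.ev ρ (XX b U) (NN b U ψ) 0 0 +
        lam * q₂.ev ρ (XX b U) (NN b U ψ) 0 0 →
      q₁.gen.ev ρ (XX b U) (NN b U ψ) 0 0 + lam * q₂.gen.ev ρ (XX b U) (NN b U ψ) 0 0 +
        φ * ∑ k, (NN b U ψ [k] 0 0) ^ 2 ≤ C * (1 + lam + φ) * Real.sqrt ε * cv U ψ ψ := by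
  obtain ⟨B₁, hB₁, h₁⟩ := tq_step b ht M q₁
  obtain ⟨B₂, hB₂, h₂⟩ := tq_step b ht M q₂
  obtain ⟨B₃, hB₃, h₃⟩ := cv_step (E := E) b ht
  refine ⟨1 + B₁ + B₂ + B₃, by positivity, ?_⟩
  intro lam φ hlam hφ U hU ψ hψ ρ hρ ε hε hle hext
  set s := Real.sqrt ε with hs
  have hs0 : 0 < s := Real.sqrt_pos.2 hε
  have hss : s ^ 2 = ε := Real.sq_sqrt hε.le
  have hc := cv_nn hU hψ
  set V := cv U ψ ψ with hV
  set X := XX b U with hX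
  set N := NN b U ψ with hN
  have a₁ := (abs_le.1 ((h₁ U hU ψ hψ ρ hρ s hs0.le).2)).1
  have a₂ := (abs_le.1 ((h₂ U hU ψ hψ ρ hρ s hs0.le).2)).1
  have a₃ := (abs_le.1 (h₃ U hU ψ hψ s hs0)).2
  have hS := ns_nd b hU hψ
  have g₁ : GC (q₁.ev ρ X N s) := GC_rg (TQ.rg hS ρ q₁) hs0
  have g₂ : GC (q₂.ev ρ X N s) := GC_rg (TQ.rg hS ρ q₂) hs0
  have g₃ : GC (fun θ => cv (pw U s θ) ψ ψ) := GC_rg (qCVR E U t hU ψ ψ hψ hψ) hs0
  obtain ⟨-, hadd, hmul, -, hmono, -, -⟩ := qBAY E U t hU s hs0.le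
  have g₂' : GC (fun θ => lam * q₂.ev ρ X N s θ) := (GC.const lam).mul g₂
  have e1 : EX U s (fun θ => q₁.ev ρ X N s θ + lam * q₂.ev ρ X N s θ) =
      EX U s (q₁.ev ρ X N s) + lam * EX U s (q₂.ev ρ X N s) := by
    rw [hadd _ _ g₁ g₂', hmul]
  have e2 : EX U s (fun θ => q₁.ev ρ X N s θ + lam * q₂.ev ρ X N s θ) ≤
      φ * EX U s (fun θ => cv (pw U s θ) ψ ψ) := by
    rw [← hmul]
    exact hmono _ _ (g₁.add g₂') ((GC.const φ).mul g₃) fun θ => hle s θ hs0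
  rw [e1] at e2
  have e3 := mul_le_mul_of_nonneg_left a₂ hlam
  have e4 := mul_le_mul_of_nonneg_left a₃ hφ
  set G₁ := q₁.gen.ev ρ X N 0 0
  set G₂ := q₂.gen.ev ρ X N 0 0
  set F₁ := q₁.ev ρ X N 0 0
  set F₂ := q₂.ev ρ X N 0 0
  set W := ∑ k, (N [k] 0 0) ^ 2
  have key : s * (G₁ + lam * G₂ + φ * W) ≤
      s * ((1 + B₁ + lam * B₂ + φ * B₃) * s * V) := by
    nlinarith
  have key2 := le_of_mul_le_mul_left key hs0
  refine key2.trans ?_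
  have h6 : (1 + B₁ + lam * B₂ + φ * B₃) ≤ (1 + B₁ + B₂ + B₃) * (1 + lam + φ) := by
    nlinarith [mul_nonneg hB₁ hlam, mul_nonneg hB₁ hφ, mul_nonneg hB₂ hφ, mul_nonneg hB₃ hlam]
  exact mul_le_mul_of_nonneg_right (mul_le_mul_of_nonneg_right h6 hs0.le) hc

end Pool.Agent.H86.KN
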