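import Pool.Agent.H86.KN.Calc
import Pool.Agent.H33.KG.BAS
import Pool.Agent.H62.KG.ZSM
import Pool.Agent.H85.KG.PWB
import Pool.Agent.H85.KG.PMG
import Pool.Agent.H83.KG.RGC
import Pool.Agent.H85.KG.RGP
import Pool.Agent.H72.KG.BAY
import Pool.Agent.H85.KG.DYN
import Pool.Agent.H34.KG.CVR
import Pool.Agent.H88.KG.COV

/-!
# Base KN, part 2: syntactic polynomials in the derivatives of posterior means, closed under the
generator, and the uniform Taylor step
-/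

set_option autoImplicit false
set_option linter.unusedSectionVars false

open MeasureTheory Set Filter Topology
open scoped ContDiff

namespace Pool.Agent.H86.KN

open Pool.Agent.H84 Pool.Agent.H84.Sym Pool.Agent.H84.Sym.P2x Pool.Agent.H19.KL
open Pool.Agent.H73.KG Pool.Agent.H85.KG

section base

variable (E : Type) [NormedAddCommGroup E] [InnerProductSpace ℝ E]
    [FiniteDimensional ℝ E] [MeasurableSpace E] [BorelSpace E]

theorem qBAS : BASStmt E := bas_thm E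
theorem qZSM : ZSMStmt E := zsm_thm E
theorem qPWB : PWBStmt E := pwb_thm E
theorem qPMG : PMGStmt E := pmg_thm E (qBAS E) (qZSM E)
theorem qRGC : RGCStmt E := rgc_thm E
theorem qRGP : RGPStmt E := rgp_thm E (qZSM E) (qPMG E)
theorem qBAY : BAYStmt E := bay_thm E (qPWB E) (qPMG E) (qRGP E)
theorem qDYN : DYNStmt E := dyn_thm E (qRGC E) (qRGP E) (qBAY E)
theorem qCVR : CVRStmt E := cvr_thm E (qPWB E) (qRGC E) (qRGP E)
theorem qCOV : COVStmt E := cov_thm E (qPWB E) (qRGC E) (qRGP E) (qDYN E) (qBAY E) (qCVR E)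

end base

section taylor

/-- mean value inequality -/
theorem tay1 {f f' : ℝ → ℝ} {K : ℝ} (hc : ContinuousOn f (Ici 0))
    (hd : ∀ r, 0 < r → HasDerivAt f (f' r) r) (hb : ∀ r, 0 < r → |f' r| ≤ K) {s : ℝ}
    (hs : 0 ≤ s) : |f s - f 0| ≤ K * s := by
  have hi : interior (Ici (0:ℝ)) = Ioi 0 := interior_Ici
  have h1 : MonotoneOn (fun r => K * r - f r) (Ici 0) := by
    refine monotoneOn_of_deriv_nonneg (convex_Ici 0) ?_ ?_ ?_
    · exact (continuousOn_const.mul continuousOn_id).sub hc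
    · rw [hi]
      intro r hr
      exact (((hasDerivAt_id r).const_mul K).sub (hd r hr)).differentiableAt.differentiableWithinAt
    · rw [hi]
      intro r hr
      have h := ((hasDerivAt_id r).const_mul K).sub (hd r hr)
      have h' : deriv (fun r => K * r - f r) r = K * 1 - f' r := h.deriv
      rw [h']
      have := abs_le.1 (hb r hr)
      linarith
  have h2 : MonotoneOn (fun r => K * r + f r) (Ici 0) := by
    refine monotoneOn_of_deriv_nonneg (convex_Ici 0) ?_ ?_ ?_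
    · exact (continuousOn_const.mul continuousOn_id).add hc
    · rw [hi]
      intro r hr
      exact (((hasDerivAt_id r).const_mul K).add (hd r hr)).differentiableAt.differentiableWithinAt
    · rw [hi]
      intro r hr
      have h := ((hasDerivAt_id r).const_mul K).add (hd r hr)
      have h' : deriv (fun r => K * r + f r) r = K * 1 + f' r := h.deriv
      rw [h']
      have := abs_le.1 (hb r hr)
      linarith
  have e1 := h1 (mem_Ici.2 le_rfl) (mem_Ici.2 hs) hs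
  have e2 := h2 (mem_Ici.2 le_rfl) (mem_Ici.2 hs) hs
  simp only at e1 e2
  rw [abs_le]
  constructor <;> linarith

/-- Taylor formula of order two -/
theorem tay2 {f f' : ℝ → ℝ} {K c : ℝ} (hc : ContinuousOn f (Ici 0))
    (hd : ∀ r, 0 < r → HasDerivAt f (f' r) r) (hb : ∀ r, 0 < r → |f' r - c| ≤ K * r) {s : ℝ}
    (hs : 0 ≤ s) : |f s - f 0 - s * c| ≤ K * s ^ 2 := by
  have hK : 0 ≤ K := by
    have := (abs_nonneg _).trans (hb 1 one_pos)
    linarith
  have hi : interior (Ici (0:ℝ)) = Ioi 0 := interior_Ici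
  have hq : ∀ r : ℝ, HasDerivAt (fun r : ℝ => K * r ^ 2) (K * (2 * r)) r := by
    intro r
    have := (hasDerivAt_pow 2 r).const_mul K
    simpa using this
  have hl : ∀ r : ℝ, HasDerivAt (fun r : ℝ => r * c) c r := by
    intro r
    simpa using (hasDerivAt_id r).mul_const c
  have h1 : MonotoneOn (fun r => K * r ^ 2 - (f r - r * c)) (Ici 0) := by
    refine monotoneOn_of_deriv_nonneg (convex_Ici 0) ?_ ?_ ?_
    · exact (continuousOn_const.mul (continuousOn_id.pow 2)).sub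
        (hc.sub (continuousOn_id.mul continuousOn_const))
    · rw [hi]
      intro r hr
      exact ((hq r).sub ((hd r hr).sub (hl r))).differentiableAt.differentiableWithinAt
    · rw [hi]
      intro r hr
      have h := (hq r).sub ((hd r hr).sub (hl r))
      have h' : deriv (fun r => K * r ^ 2 - (f r - r * c)) r = K * (2 * r) - (f' r - c) := h.deriv
      rw [h']
      have := abs_le.1 (hb r hr)
      have h3 : 0 ≤ K * r := mul_nonneg hK (le_of_lt hr)
      linarith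
  have h2 : MonotoneOn (fun r => K * r ^ 2 + (f r - r * c)) (Ici 0) := by
    refine monotoneOn_of_deriv_nonneg (convex_Ici 0) ?_ ?_ ?_
    · exact (continuousOn_const.mul (continuousOn_id.pow 2)).add
        (hc.sub (continuousOn_id.mul continuousOn_const))
    · rw [hi]
      intro r hr
      exact ((hq r).add ((hd r hr).sub (hl r))).differentiableAt.differentiableWithinAt
    · rw [hi]
      intro r hr
      have h := (hq r).add ((hd r hr).sub (hl r))
      have h' : deriv (fun r => K * r ^ 2 + (f r - r * c)) r = K * (2 * r) + (f' r - c) := h.deriv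
      rw [h']
      have := abs_le.1 (hb r hr)
      have h3 : 0 ≤ K * r := mul_nonneg hK (le_of_lt hr)
      linarith
  have e1 := h1 (mem_Ici.2 le_rfl) (mem_Ici.2 hs) hs
  have e2 := h2 (mem_Ici.2 le_rfl) (mem_Ici.2 hs) hs
  simp only at e1 e2
  rw [abs_le]
  constructor <;> nlinarith

end taylor

/-! ## Syntax -/

/-- coefficients: polynomials in the derivatives (of order at least one) of the posterior means of
the coordinates and in parameters -/
inductive TA (ι κ : Type) : Type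
  | c (r : ℝ) : TA ι κ
  | p (k : κ) : TA ι κ
  | x (k i : ι) (l : List ι) : TA ι κ
  | add (a a' : TA ι κ) : TA ι κ
  | mul (a a' : TA ι κ) : TA ι κ

/-- quadratic forms in the derivatives of the posterior mean of `ψ` -/
inductive TQ (ι κ : Type) : Type
  | z : TQ ι κ
  | m (a : TA ι κ) (i : ι) (l : List ι) (j : ι) (l' : List ι) : TQ ι κ
  | add (q q' : TQ ι κ) : TQ ι κ

section syn

variable {ι κ : Type}

/-- words of the coordinates -/
noncomputable def TA.xw (k : ι) : List ι → TA ι κ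
  | [] => TA.c 0
  | i :: l => TA.x k i l

/-- sum of a list -/
noncomputable def TA.ls : List (TA ι κ) → TA ι κ
  | [] => TA.c 0
  | a :: L => TA.add a (TA.ls L)

/-- sum over the index set -/
noncomputable def TA.us [Fintype ι] (f : ι → TA ι κ) : TA ι κ :=
  TA.ls ((Finset.univ : Finset ι).toList.map f)

/-- derivative in the direction `j` -/
noncomputable def TA.d (j : ι) : TA ι κ → TA ι κ
  | .c _ => .c 0
  | .p _ => .c 0
  | .x k i l => .x k j (i :: l)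
  | .add a a' => .add (TA.d j a) (TA.d j a')
  | .mul a a' => .add (.mul (TA.d j a) a') (.mul a (TA.d j a'))

/-- generator -/
noncomputable def TA.gen [Fintype ι] : TA ι κ → TA ι κ
  | .c _ => .c 0
  | .p _ => .c 0
  | .x k i l => .mul (.c (-1)) (TA.ls ((spl (i :: l)).map fun p =>
      TA.us fun m => .mul (TA.xw m p.1) (.x k m p.2)))
  | .add a a' => .add (TA.gen a) (TA.gen a')
  | .mul a a' => .add (.mul a (TA.gen a')) (.add (.mul a' (TA.gen a))
      (TA.us fun j => .mul (TA.d j a) (TA.d j a')))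

/-- sum of a list -/
noncomputable def TQ.ls : List (TQ ι κ) → TQ ι κ
  | [] => TQ.z
  | a :: L => TQ.add a (TQ.ls L)

/-- sum over the index set -/
noncomputable def TQ.us [Fintype ι] (f : ι → TQ ι κ) : TQ ι κ :=
  TQ.ls ((Finset.univ : Finset ι).toList.map f)

/-- generator -/
noncomputable def TQ.gen [Fintype ι] : TQ ι κ → TQ ι κ
  | .z => .z
  | .m a i l j l' =>
      .add (TQ.ls ((spl (j :: l')).map fun p =>
        TQ.us fun m => .m (.mul (.c (-1)) (.mul a (TA.xw m p.1))) i l m p.2))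
      (.add (TQ.ls ((spl (i :: l)).map fun p =>
        TQ.us fun m => .m (.mul (.c (-1)) (.mul a (TA.xw m p.1))) m p.2 j l'))
      (.add (TQ.us fun k => .m a k (i :: l) k (j :: l'))
      (.add (.m a.gen i l j l')
      (TQ.us fun k => .add (.m (a.d k) k (i :: l) j l') (.m (a.d k) i l k (j :: l'))))))
  | .add q q' => .add (TQ.gen q) (TQ.gen q')

end syn

section eval

variable {E : Type}
variable {ι κ : Type}

/-- value of a coefficient -/
noncomputable def TA.ev (ρ : κ → ℝ) (X : ι → List ι → ℝ → E → ℝ) : TA ι κ → ℝ → E → ℝ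
  | .c r => fun _ _ => r
  | .p k => fun _ _ => ρ k
  | .x k i l => X k (i :: l)
  | .add a a' => fun s θ => TA.ev ρ X a s θ + TA.ev ρ X a' s θ
  | .mul a a' => fun s θ => TA.ev ρ X a s θ * TA.ev ρ X a' s θ

/-- value of a quadratic form -/
noncomputable def TQ.ev (ρ : κ → ℝ) (X : ι → List ι → ℝ → E → ℝ) (N : List ι → ℝ → E → ℝ) :
    TQ ι κ → ℝ → E → ℝ
  | .z => fun _ _ => 0
  | .m a i l j l' => fun s θ => a.ev ρ X s θ * (N (i :: l) s θ * N (j :: l') s θ)
  | .add q q' => fun s θ => TQ.ev ρ X N q s θ + TQ.ev ρ X N q' s θ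

variable (ρ : κ → ℝ) (X : ι → List ι → ℝ → E → ℝ) (N : List ι → ℝ → E → ℝ)

theorem TA.ev_xw (k : ι) (l : List ι) (s : ℝ) (θ : E) :
    (TA.xw k l : TA ι κ).ev ρ X s θ = if l = [] then 0 else X k l s θ := by
  cases l with
  | nil => simp [TA.xw, TA.ev]
  | cons i l => simp [TA.xw, TA.ev]

theorem TA.ev_ls (L : List (TA ι κ)) (s : ℝ) (θ : E) :
    (TA.ls L).ev ρ X s θ = (L.map fun a => a.ev ρ X s θ).sum := by
  induction L with
  | nil => simp [TA.ls, TA.ev]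
  | cons a L ih => simp [TA.ls, TA.ev, ih]

theorem TA.ev_us [Fintype ι] (f : ι → TA ι κ) (s : ℝ) (θ : E) :
    (TA.us f).ev ρ X s θ = ∑ i, (f i).ev ρ X s θ := by
  unfold TA.us
  rw [TA.ev_ls, List.map_map]
  exact Finset.sum_map_toList _ _

theorem TQ.ev_ls (L : List (TQ ι κ)) (s : ℝ) (θ : E) :
    (TQ.ls L).ev ρ X N s θ = (L.map fun a => a.ev ρ X N s θ).sum := by
  induction L with
  | nil => simp [TQ.ls, TQ.ev]
  | cons a L ih => simp [TQ.ls, TQ.ev, ih]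

theorem TQ.ev_us [Fintype ι] (f : ι → TQ ι κ) (s : ℝ) (θ : E) :
    (TQ.us f).ev ρ X N s θ = ∑ i, (f i).ev ρ X N s θ := by
  unfold TQ.us
  rw [TQ.ev_ls, List.map_map]
  exact Finset.sum_map_toList _ _

/-- the right side of the formula for the generator of a word -/
noncomputable def gW [Fintype ι] (Y : List ι → ℝ → E → ℝ) (l : List ι) (s : ℝ) (θ : E) : ℝ :=
  -((spl l).map (fun p => if p.1 = [] then 0 else
    ∑ m, X m p.1 s θ * Y (m :: p.2) s θ)).sum

theorem TA.ev_gen_x [Fintype ι] (k i : ι) (l : List ι) (s : ℝ) (θ : E) :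
    (TA.x k i l : TA ι κ).gen.ev ρ X s θ = gW X (X k) (i :: l) s θ := by
  unfold gW
  simp only [TA.gen, TA.ev, TA.ev_ls, List.map_map, Function.comp_def, TA.ev_us, TA.ev_xw]
  rw [neg_one_mul]
  congr 2
  refine List.map_congr_left fun p _ => ?_
  split_ifs with h
  · simp
  · rfl

theorem TQ.ev_gen_m [Fintype ι] (a : TA ι κ) (i : ι) (l : List ι) (j : ι) (l' : List ι)
    (s : ℝ) (θ : E) : (TQ.m a i l j l').gen.ev ρ X N s θ =
      a.ev ρ X s θ * (N (i :: l) s θ * gW X N (j :: l') s θ + N (j :: l') s θ * gW X N (i :: l) s θ +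
        ∑ k, N (k :: i :: l) s θ * N (k :: j :: l') s θ) +
      a.gen.ev ρ X s θ * (N (i :: l) s θ * N (j :: l') s θ) +
      ∑ k, (a.d k).ev ρ X s θ *
        (N (k :: i :: l) s θ * N (j :: l') s θ + N (i :: l) s θ * N (k :: j :: l') s θ) := by
  have key : ∀ (L : List (List ι × List ι)) (y : ℝ),
      (L.map fun p => ∑ m, (-1 : ℝ) * (a.ev ρ X s θ * (if p.1 = [] then 0 else X m p.1 s θ)) *
        (y * N (m :: p.2) s θ)).sum = a.ev ρ X s θ * (y * -(L.map (fun p => if p.1 = [] then 0 else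
          ∑ m, X m p.1 s θ * N (m :: p.2) s θ)).sum) := by
    intro L y
    induction L with
    | nil => simp
    | cons p L ih =>
      simp only [List.map_cons, List.sum_cons, ih]
      split_ifs with h
      · simp
      · have : ∑ m, (-1 : ℝ) * (a.ev ρ X s θ * X m p.1 s θ) * (y * N (m :: p.2) s θ) =
            a.ev ρ X s θ * (y * -∑ m, X m p.1 s θ * N (m :: p.2) s θ) := by
          rw [← Finset.sum_neg_distrib, Finset.mul_sum, Finset.mul_sum]
          exact Finset.sum_congr rfl fun m _ => by ring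
        rw [this]
        ring
  have key2 : ∀ (L : List (List ι × List ι)) (y : ℝ),
      (L.map fun p => ∑ m, (-1 : ℝ) * (a.ev ρ X s θ * (if p.1 = [] then 0 else X m p.1 s θ)) *
        (N (m :: p.2) s θ * y)).sum = a.ev ρ X s θ * (y * -(L.map (fun p => if p.1 = [] then 0 else
          ∑ m, X m p.1 s θ * N (m :: p.2) s θ)).sum) := by
    intro L y
    rw [← key L y]
    congr 1
    refine List.map_congr_left fun p _ => Finset.sum_congr rfl fun m _ => by ring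
  unfold gW
  simp only [TQ.gen, TQ.ev, TQ.ev_ls, List.map_map, Function.comp_def, TQ.ev_us, TA.ev, TA.ev_xw]
  rw [key, key2, ← Finset.mul_sum]
  have h3 : ∀ k, (a.d k).ev ρ X s θ * (N (k :: i :: l) s θ * N (j :: l') s θ) +
      (a.d k).ev ρ X s θ * (N (i :: l) s θ * N (k :: j :: l') s θ) = (a.d k).ev ρ X s θ *
      (N (k :: i :: l) s θ * N (j :: l') s θ + N (i :: l) s θ * N (k :: j :: l') s θ) :=
    fun k => by ring
  simp only [h3]
  ring

end eval

/-! ## Semantics -/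

section sem

variable {E : Type} [NormedAddCommGroup E] [InnerProductSpace ℝ E]
    [FiniteDimensional ℝ E] [MeasurableSpace E] [BorelSpace E]
variable {ι κ : Type} [Fintype ι]

/-- the system of the derivatives of the posterior means -/
structure NS (b : OrthonormalBasis ι ℝ E) (U : E → ℝ) (N : List ι → ℝ → E → ℝ)
    (X : ι → List ι → ℝ → E → ℝ) : Prop where
  rgN : ∀ l, RG (N l)
  rgX : ∀ k l, RG (X k l)
  dN : ∀ l k s θ, 0 < s → D (b k) (N l s) θ = N (k :: l) s θ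
  dX : ∀ m l k s θ, 0 < s → D (b k) (X m l s) θ = X m (k :: l) s θ
  gN : ∀ l s θ, 0 < s → H73.KG.gen b U (N l) s θ = gW X N l s θ
  gX : ∀ k l s θ, 0 < s → H73.KG.gen b U (X k l) s θ = gW X (X k) l s θ

theorem gen_const (b : OrthonormalBasis ι ℝ E) (U : E → ℝ) (c s : ℝ) (θ : E) :
    H73.KG.gen b U (fun (_ : ℝ) (_ : E) => c) s θ = 0 := by
  unfold gen
  have h : ∀ v : E, D v (fun _ : E => c) = fun _ => 0 := fun v => D_const' c v
  simp only [h]
  have h2 : ∀ v : E, D v (fun _ : E => (0:ℝ)) = fun _ => 0 := fun v => D_const' 0 v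
  simp [h2]

variable {b : OrthonormalBasis ι ℝ E} {U : E → ℝ} {N : List ι → ℝ → E → ℝ}
    {X : ι → List ι → ℝ → E → ℝ}

theorem RG.diff {G : ℝ → E → ℝ} (hG : RG G) {s : ℝ} (hs : 0 < s) : Differentiable ℝ (G s) :=
  ((qRGC E).2.2.2.2.2.1 G hG s hs).2.1.differentiable (by norm_num)

theorem D_addR {F G : ℝ → E → ℝ} (hF : RG F) (hG : RG G) {s : ℝ} (hs : 0 < s) (v θ : E) :
    D v (fun θ => F s θ + G s θ) θ = D v (F s) θ + D v (G s) θ := by
  unfold D
  rw [fderiv_fun_add (RG.diff hF hs θ) (RG.diff hG hs θ)]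
  rfl

theorem D_mulR {F G : ℝ → E → ℝ} (hF : RG F) (hG : RG G) {s : ℝ} (hs : 0 < s) (v θ : E) :
    D v (fun θ => F s θ * G s θ) θ = D v (F s) θ * G s θ + F s θ * D v (G s) θ := by
  unfold D
  rw [fderiv_fun_mul (RG.diff hF hs θ) (RG.diff hG hs θ)]
  simp only [add_apply, smul_apply, smul_eq_mul]
  ring

theorem TA.rg (hS : NS b U N X) (ρ : κ → ℝ) (a : TA ι κ) : RG (a.ev ρ X) := by
  induction a with
  | c r => exact (qRGC E).1 r
  | p k => exact (qRGC E).1 (ρ k)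
  | x k i l => exact hS.rgX k (i :: l)
  | add a a' h h' => exact (qRGC E).2.1 _ _ h h'
  | mul a a' h h' => exact (qRGC E).2.2.1 _ _ h h'

theorem TQ.rg (hS : NS b U N X) (ρ : κ → ℝ) (q : TQ ι κ) : RG (q.ev ρ X N) := by
  induction q with
  | z => exact (qRGC E).1 0
  | m a i l j l' =>
    exact (qRGC E).2.2.1 _ _ (TA.rg hS ρ a) ((qRGC E).2.2.1 _ _ (hS.rgN _) (hS.rgN _))
  | add q q' h h' => exact (qRGC E).2.1 _ _ h h'

theorem TA.ev_d (hS : NS b U N X) (ρ : κ → ℝ) (a : TA ι κ) (j : ι) {s : ℝ} (hs : 0 < s) (θ : E) :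
    D (b j) (a.ev ρ X s) θ = (a.d j).ev ρ X s θ := by
  induction a with
  | c r =>
    change D (b j) (fun _ => r) θ = 0
    rw [D_const']
  | p k =>
    change D (b j) (fun _ => ρ k) θ = 0
    rw [D_const']
  | x k i l => exact hS.dX k (i :: l) j s θ hs
  | add a a' h h' =>
    change D (b j) (fun θ => a.ev ρ X s θ + a'.ev ρ X s θ) θ = _
    rw [D_addR (TA.rg hS ρ a) (TA.rg hS ρ a') hs, h, h']
    rfl
  | mul a a' h h' =>
    change D (b j) (fun θ => a.ev ρ X s θ * a'.ev ρ X s θ) θ = _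
    rw [D_mulR (TA.rg hS ρ a) (TA.rg hS ρ a') hs, h, h']
    rfl

theorem TA.ev_gen (hS : NS b U N X) (ρ : κ → ℝ) (a : TA ι κ) {s : ℝ} (hs : 0 < s) (θ : E) :
    H73.KG.gen b U (a.ev ρ X) s θ = a.gen.ev ρ X s θ := by
  induction a with
  | c r => exact gen_const b U r s θ
  | p k => exact gen_const b U (ρ k) s θ
  | x k i l =>
    rw [TA.ev_gen_x]
    exact hS.gX k (i :: l) s θ hs
  | add a a' h h' =>
    have := ((qRGC E).2.2.2.2.1 _ _ U (TA.rg hS ρ a) (TA.rg hS ρ a') ι b s θ hs).1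
    change H73.KG.gen b U (fun s θ => a.ev ρ X s θ + a'.ev ρ X s θ) s θ = _
    rw [this, h, h']
    rfl
  | mul a a' h h' =>
    have := ((qRGC E).2.2.2.2.1 _ _ U (TA.rg hS ρ a) (TA.rg hS ρ a') ι b s θ hs).2
    change H73.KG.gen b U (fun s θ => a.ev ρ X s θ * a'.ev ρ X s θ) s θ = _
    rw [this, h, h']
    simp only [TA.gen, TA.ev, TA.ev_us, TA.ev_d hS ρ _ _ hs]
    ring

theorem TQ.ev_gen (hS : NS b U N X) (ρ : κ → ℝ) (q : TQ ι κ) {s : ℝ} (hs : 0 < s) (θ : E) :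
    H73.KG.gen b U (q.ev ρ X N) s θ = q.gen.ev ρ X N s θ := by
  induction q with
  | z => exact gen_const b U 0 s θ
  | m a i l j l' =>
    have r1 := hS.rgN (i :: l)
    have r2 := hS.rgN (j :: l')
    have h1 := ((qRGC E).2.2.2.2.1 _ _ U r1 r2 ι b s θ hs).2
    have h2 := ((qRGC E).2.2.2.2.1 _ _ U (TA.rg hS ρ a) ((qRGC E).2.2.1 _ _ r1 r2) ι b s θ hs).2
    change H73.KG.gen b U (fun s θ => a.ev ρ X s θ * (N (i :: l) s θ * N (j :: l') s θ)) s θ = _
    rw [h2, h1, TA.ev_gen hS ρ a hs, hS.gN _ s θ hs, hS.gN _ s θ hs, TQ.ev_gen_m]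
    simp only [D_mulR r1 r2 hs, TA.ev_d hS ρ _ _ hs, hS.dN _ _ s θ hs]
    ring
  | add q q' h h' =>
    have := ((qRGC E).2.2.2.2.1 _ _ U (TQ.rg hS ρ q) (TQ.rg hS ρ q') ι b s θ hs).1
    change H73.KG.gen b U (fun s θ => q.ev ρ X N s θ + q'.ev ρ X N s θ) s θ = _
    rw [this, h, h']
    rfl

/-! ## Bounds -/

/-- bound of a coefficient -/
noncomputable def TA.bd (BX : ℕ → ℝ) (M : ℝ) : TA ι κ → ℝ
  | .c r => |r|
  | .p _ => |M|
  | .x _ _ l => |BX (l.length + 1)|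
  | .add a a' => TA.bd BX M a + TA.bd BX M a'
  | .mul a a' => TA.bd BX M a * TA.bd BX M a'

/-- bound of a quadratic form -/
noncomputable def TQ.bd (BX BN : ℕ → ℝ) (M : ℝ) : TQ ι κ → ℝ
  | .z => 0
  | .m a _ l _ l' => TA.bd BX M a * (|BN (l.length + 1)| + |BN (l'.length + 1)|)
  | .add q q' => TQ.bd BX BN M q + TQ.bd BX BN M q'

theorem TA.bd_nonneg (BX : ℕ → ℝ) (M : ℝ) (a : TA ι κ) : 0 ≤ a.bd BX M := by
  induction a with
  | c r => exact abs_nonneg _
  | p k => exact abs_nonneg _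
  | x k i l => exact abs_nonneg _
  | add a a' h h' => exact add_nonneg h h'
  | mul a a' h h' => exact mul_nonneg h h'

theorem TQ.bd_nonneg (BX BN : ℕ → ℝ) (M : ℝ) (q : TQ ι κ) : 0 ≤ q.bd BX BN M := by
  induction q with
  | z => exact le_rfl
  | m a i l j l' =>
    exact mul_nonneg (TA.bd_nonneg BX M a) (add_nonneg (abs_nonneg _) (abs_nonneg _))
  | add q q' h h' => exact add_nonneg h h'

theorem TA.ev_le {BX : ℕ → ℝ} {M : ℝ} {ρ : κ → ℝ} (hρ : ∀ k, |ρ k| ≤ M)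
    (hX : ∀ k l (s : ℝ) (θ : E), 0 ≤ s → l ≠ [] → |X k l s θ| ≤ BX l.length) (a : TA ι κ)
    {s : ℝ} (hs : 0 ≤ s) (θ : E) : |a.ev ρ X s θ| ≤ a.bd BX M := by
  induction a with
  | c r => exact le_rfl
  | p k => exact (hρ k).trans (le_abs_self M)
  | x k i l => exact (hX k (i :: l) s θ hs (by simp)).trans (le_abs_self _)
  | add a a' h h' => exact (abs_add_le _ _).trans (add_le_add h h')
  | mul a a' h h' =>
    change |a.ev ρ X s θ * a'.ev ρ X s θ| ≤ _
    rw [abs_mul]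
    exact mul_le_mul h h' (abs_nonneg _) (TA.bd_nonneg BX M a)

theorem TQ.ev_le {BX BN : ℕ → ℝ} {M : ℝ} {ρ : κ → ℝ} (hρ : ∀ k, |ρ k| ≤ M)
    (hX : ∀ k l (s : ℝ) (θ : E), 0 ≤ s → l ≠ [] → |X k l s θ| ≤ BX l.length)
    {V : ℝ → E → ℝ} (hV : ∀ s θ, 0 ≤ s → 0 ≤ V s θ)
    (hN : ∀ l (s : ℝ) (θ : E), 0 ≤ s → l ≠ [] → (N l s θ) ^ 2 ≤ BN l.length * V s θ)
    (q : TQ ι κ) {s : ℝ} (hs : 0 ≤ s) (θ : E) : |q.ev ρ X N s θ| ≤ q.bd BX BN M * V s θ := by
  have hV0 := hV s θ hs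
  induction q with
  | z =>
    change |(0:ℝ)| ≤ 0 * V s θ
    simp
  | m a i l j l' =>
    change |a.ev ρ X s θ * (N (i :: l) s θ * N (j :: l') s θ)| ≤ _
    rw [abs_mul]
    have h1 := TA.ev_le hρ hX a hs θ
    have h2 := hN (i :: l) s θ hs (by simp)
    have h3 := hN (j :: l') s θ hs (by simp)
    simp only [List.length_cons] at h2 h3
    have h4 : |N (i :: l) s θ * N (j :: l') s θ| ≤
        (|BN (l.length + 1)| + |BN (l'.length + 1)|) * V s θ := by
      have h5 : |N (i :: l) s θ * N (j :: l') s θ| ≤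
          (N (i :: l) s θ) ^ 2 + (N (j :: l') s θ) ^ 2 := by
        rw [abs_le]
        constructor <;> nlinarith [sq_nonneg (N (i :: l) s θ + N (j :: l') s θ),
          sq_nonneg (N (i :: l) s θ - N (j :: l') s θ), sq_nonneg (N (i :: l) s θ),
          sq_nonneg (N (j :: l') s θ)]
      have h6 : BN (l.length + 1) * V s θ ≤ |BN (l.length + 1)| * V s θ :=
        mul_le_mul_of_nonneg_right (le_abs_self _) hV0
      have h7 : BN (l'.length + 1) * V s θ ≤ |BN (l'.length + 1)| * V s θ :=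
        mul_le_mul_of_nonneg_right (le_abs_self _) hV0
      linarith
    calc _ ≤ a.bd BX M * ((|BN (l.length + 1)| + |BN (l'.length + 1)|) * V s θ) :=
          mul_le_mul h1 h4 (abs_nonneg _) (TA.bd_nonneg BX M a)
      _ = _ := by unfold TQ.bd; ring
  | add q q' h h' =>
    change |q.ev ρ X N s θ + q'.ev ρ X N s θ| ≤ (q.bd BX BN M + q'.bd BX BN M) * V s θ
    rw [add_mul]
    exact (abs_add_le _ _).trans (add_le_add h h')

/-! ## Means over the channel -/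

theorem EX_nn {U : E → ℝ} {s : ℝ} {F : E → ℝ} (hF : ∀ θ, 0 ≤ F θ) : 0 ≤ EX U s F :=
  integral_nonneg fun _ => integral_nonneg fun _ => hF _

theorem EX_abs {t : ℝ} (hP : PP U t) {s : ℝ} (hs : 0 ≤ s) {F G : E → ℝ} (hF : GC F) (hG : GC G)
    (h : ∀ θ, |F θ| ≤ G θ) : |EX U s F| ≤ EX U s G := by
  obtain ⟨-, hadd, hmul, -, hmono, -, -⟩ := qBAY E U t hP s hs
  have h1 := hmono F G hF hG fun θ => (le_abs_self _).trans (h θ)
  have h2 := hmono (fun θ => (-1) * F θ) G ((GC.const (-1)).mul hF) hG fun θ => by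
    have := (neg_le_abs (F θ)).trans (h θ)
    linarith
  rw [hmul (-1) F] at h2
  rw [abs_le]
  constructor <;> linarith

theorem EX_cv {t : ℝ} (hP : PP U t) (ψ : E → ℝ) (hψ : GC ψ) {s : ℝ} (hs : 0 < s)
    (b : OrthonormalBasis ι ℝ E) : EX U s (fun θ => cv (pw U s θ) ψ ψ) ≤ cv U ψ ψ := by
  obtain ⟨-, h⟩ := qCOV E U t hP ψ ψ hψ hψ ι b s hs
  rw [h]
  have : 0 ≤ ∫ r in (0:ℝ)..s, EX U r (fun θ => ∑ i, cv (pw U r θ) ψ (li (b i)) *
      cv (pw U r θ) ψ (li (b i))) := by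
    refine intervalIntegral.integral_nonneg hs.le fun r _ => EX_nn fun θ =>
      Finset.sum_nonneg fun i _ => mul_self_nonneg _
  linarith

theorem GC_rg {G : ℝ → E → ℝ} (hG : RG G) {s : ℝ} (hs : 0 < s) : GC (G s) :=
  ((qRGC E).2.2.2.2.2.1 G hG s hs).1

theorem cv_nn {t : ℝ} (hP : PP U t) {ψ : E → ℝ} (hψ : GC ψ) : 0 ≤ cv U ψ ψ :=
  ((qBAS E).2.2.2.1 U t hP ψ ψ hψ hψ).2.1

theorem cvp_nn {t : ℝ} (hP : PP U t) {ψ : E → ℝ} (hψ : GC ψ) {s : ℝ} (hs : 0 ≤ s) (θ : E) :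
    0 ≤ cv (pw U s θ) ψ ψ :=
  cv_nn ((qPWB E U t hP).1 s θ hs) hψ

/-- the uniform Taylor step for quadratic forms -/
theorem TQ.step {BX BN : ℕ → ℝ} {M t : ℝ} {ρ : κ → ℝ} (hP : PP U t) {ψ : E → ℝ} (hψ : GC ψ)
    (hS : NS b U N X) (hρ : ∀ k, |ρ k| ≤ M)
    (hX : ∀ k l (s : ℝ) (θ : E), 0 ≤ s → l ≠ [] → |X k l s θ| ≤ BX l.length)
    (hN : ∀ l (s : ℝ) (θ : E), 0 ≤ s → l ≠ [] → (N l s θ) ^ 2 ≤ BN l.length *
      cv (pw U s θ) ψ ψ) (q : TQ ι κ) {s : ℝ} (hs : 0 ≤ s) :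
    |EX U s (q.ev ρ X N s) - q.ev ρ X N 0 0| ≤ q.gen.bd BX BN M * cv U ψ ψ * s ∧
    |EX U s (q.ev ρ X N s) - q.ev ρ X N 0 0 - s * q.gen.ev ρ X N 0 0| ≤
      q.gen.gen.bd BX BN M * cv U ψ ψ * s ^ 2 := by
  have hV : ∀ s θ, 0 ≤ s → 0 ≤ cv (pw U s θ) ψ ψ := fun s θ hs => cvp_nn hP hψ hs θ
  have hder : ∀ q : TQ ι κ, ContinuousOn (fun s => EX U s (q.ev ρ X N s)) (Ici 0) ∧
      EX U 0 (q.ev ρ X N 0) = q.ev ρ X N 0 0 ∧ ∀ r, 0 < r →
      HasDerivAt (fun s => EX U s (q.ev ρ X N s)) (EX U r (q.gen.ev ρ X N r)) r := by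
    intro q
    obtain ⟨h1, h2, h3⟩ := qDYN E U t hP _ (TQ.rg hS ρ q)
    refine ⟨h2, h3, fun r hr => ?_⟩
    have h4 := h1 ι b r hr
    have h5 : H73.KG.gen b U (q.ev ρ X N) r = q.gen.ev ρ X N r := by
      funext θ
      exact TQ.ev_gen hS ρ q hr θ
    rwa [h5] at h4
  have hbd : ∀ q : TQ ι κ, ∀ r, 0 < r → |EX U r (q.ev ρ X N r)| ≤ q.bd BX BN M * cv U ψ ψ := by
    intro q r hr
    have hgV : GC (fun θ => cv (pw U r θ) ψ ψ) := GC_rg (qCVR E U t hP ψ ψ hψ hψ) hr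
    have hgV2 : GC (fun θ => q.bd BX BN M * cv (pw U r θ) ψ ψ) := (GC.const _).mul hgV
    refine (EX_abs hP hr.le (GC_rg (TQ.rg hS ρ q) hr) hgV2
      fun θ => TQ.ev_le hρ hX hV hN q hr.le θ).trans ?_
    obtain ⟨-, -, hmul, -⟩ := qBAY E U t hP r hr.le
    rw [hmul]
    exact mul_le_mul_of_nonneg_left (EX_cv hP ψ hψ hr b) (TQ.bd_nonneg BX BN M q)
  have hone : ∀ q : TQ ι κ, ∀ r, 0 ≤ r →
      |EX U r (q.ev ρ X N r) - q.ev ρ X N 0 0| ≤ q.gen.bd BX BN M * cv U ψ ψ * r := by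
    intro q r hr
    obtain ⟨h1, h2, h3⟩ := hder q
    have := tay1 h1 h3 (hbd q.gen) hr
    rwa [h2] at this
  refine ⟨hone q s hs, ?_⟩
  obtain ⟨h1, h2, h3⟩ := hder q
  have := tay2 h1 h3 (c := q.gen.ev ρ X N 0 0) (K := q.gen.gen.bd BX BN M * cv U ψ ψ)
    (fun r hr => hone q.gen r hr.le) hs
  rwa [h2] at this

/-- the uniform Taylor step for coefficients -/
theorem TA.step {BX : ℕ → ℝ} {M t : ℝ} {ρ : κ → ℝ} (hP : PP U t)
    (hS : NS b U N X) (hρ : ∀ k, |ρ k| ≤ M)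
    (hX : ∀ k l (s : ℝ) (θ : E), 0 ≤ s → l ≠ [] → |X k l s θ| ≤ BX l.length)
    (q : TA ι κ) {s : ℝ} (hs : 0 ≤ s) :
    |EX U s (q.ev ρ X s) - q.ev ρ X 0 0| ≤ q.gen.bd BX M * s ∧
    |EX U s (q.ev ρ X s) - q.ev ρ X 0 0 - s * q.gen.ev ρ X 0 0| ≤ q.gen.gen.bd BX M * s ^ 2 := by
  have hder : ∀ q : TA ι κ, ContinuousOn (fun s => EX U s (q.ev ρ X s)) (Ici 0) ∧
      EX U 0 (q.ev ρ X 0) = q.ev ρ X 0 0 ∧ ∀ r, 0 < r →
      HasDerivAt (fun s => EX U s (q.ev ρ X s)) (EX U r (q.gen.ev ρ X r)) r := by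
    intro q
    obtain ⟨h1, h2, h3⟩ := qDYN E U t hP _ (TA.rg hS ρ q)
    refine ⟨h2, h3, fun r hr => ?_⟩
    have h4 := h1 ι b r hr
    have h5 : H73.KG.gen b U (q.ev ρ X) r = q.gen.ev ρ X r := by
      funext θ
      exact TA.ev_gen hS ρ q hr θ
    rwa [h5] at h4
  have hbd : ∀ q : TA ι κ, ∀ r, 0 < r → |EX U r (q.ev ρ X r)| ≤ q.bd BX M := by
    intro q r hr
    refine (EX_abs hP hr.le (GC_rg (TA.rg hS ρ q) hr) (GC.const (q.bd BX M))
      fun θ => TA.ev_le hρ hX q hr.le θ).trans ?_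
    obtain ⟨-, -, -, hc, -⟩ := qBAY E U t hP r hr.le
    rw [hc]
  have hone : ∀ q : TA ι κ, ∀ r, 0 ≤ r →
      |EX U r (q.ev ρ X r) - q.ev ρ X 0 0| ≤ q.gen.bd BX M * r := by
    intro q r hr
    obtain ⟨h1, h2, h3⟩ := hder q
    have := tay1 h1 h3 (hbd q.gen) hr
    rwa [h2] at this
  refine ⟨hone q s hs, ?_⟩
  obtain ⟨h1, h2, h3⟩ := hder q
  have := tay2 h1 h3 (c := q.gen.ev ρ X 0 0) (K := q.gen.gen.bd BX M)
    (fun r hr => hone q.gen r hr.le) hs
  rwa [h2] at this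

/-- the uniform Taylor step for the variance -/
theorem var_step {BX BN : ℕ → ℝ} {t : ℝ} (hP : PP U t) {ψ : E → ℝ} (hψ : GC ψ)
    (hS : NS b U N X)
    (hX : ∀ k l (s : ℝ) (θ : E), 0 ≤ s → l ≠ [] → |X k l s θ| ≤ BX l.length)
    (hN : ∀ l (s : ℝ) (θ : E), 0 ≤ s → l ≠ [] → (N l s θ) ^ 2 ≤ BN l.length *
      cv (pw U s θ) ψ ψ) (hN1 : ∀ k (s : ℝ) (θ : E), 0 ≤ s → N [k] s θ = cv (pw U s θ) ψ (li (b k)))
    {s : ℝ} (hs : 0 < s) :
    |EX U s (fun θ => cv (pw U s θ) ψ ψ) - cv U ψ ψ + s * ∑ k, (N [k] 0 0) ^ 2| ≤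
      (TQ.us fun k => TQ.m (TA.c 1) k [] k [] : TQ ι Empty).gen.bd BX BN 0 * cv U ψ ψ * s ^ 2 := by
  set q : TQ ι Empty := TQ.us fun k => TQ.m (TA.c 1) k [] k [] with hq
  have hev : ∀ r θ, q.ev (fun k => k.elim) X N r θ = ∑ k, (N [k] r θ) ^ 2 := by
    intro r θ
    rw [hq, TQ.ev_us]
    refine Finset.sum_congr rfl fun k _ => ?_
    simp only [TQ.ev, TA.ev]
    ring
  obtain ⟨hii, h⟩ := qCOV E U t hP ψ ψ hψ hψ ι b s hs
  have e1 : ∀ r, 0 ≤ r → EX U r (fun θ => ∑ i, cv (pw U r θ) ψ (li (b i)) *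
      cv (pw U r θ) ψ (li (b i))) = EX U r (q.ev (fun k => k.elim) X N r) := by
    intro r hr
    congr 1
    funext θ
    rw [hev]
    refine Finset.sum_congr rfl fun k _ => ?_
    rw [hN1 k r θ hr]
    ring
  set K := q.gen.bd BX BN 0 * cv U ψ ψ with hK
  have hK0 : 0 ≤ K := mul_nonneg (TQ.bd_nonneg _ _ _ _) (cv_nn hP hψ)
  have e2 : ∀ r, 0 ≤ r → |EX U r (fun θ => ∑ i, cv (pw U r θ) ψ (li (b i)) *
      cv (pw U r θ) ψ (li (b i))) - ∑ k, (N [k] 0 0) ^ 2| ≤ K * r := by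
    intro r hr
    rw [e1 r hr, ← hev]
    exact (TQ.step hP hψ hS (M := 0) (fun k => k.elim) hX hN q hr).1
  have e3 : ‖∫ r in (0:ℝ)..s, (EX U r (fun θ => ∑ i, cv (pw U r θ) ψ (li (b i)) *
      cv (pw U r θ) ψ (li (b i))) - ∑ k, (N [k] 0 0) ^ 2)‖ ≤ K * s * |s - 0| := by
    refine intervalIntegral.norm_integral_le_of_norm_le_const fun r hr => ?_
    rw [uIoc_of_le hs.le] at hr
    exact (e2 r hr.1.le).trans (mul_le_mul_of_nonneg_left hr.2 hK0)
  rw [intervalIntegral.integral_sub hii intervalIntegrable_const, intervalIntegral.integral_const,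
    sub_zero, smul_eq_mul, abs_of_pos hs, Real.norm_eq_abs] at e3
  rw [h]
  have e4 : EX U s (fun θ => cv (pw U s θ) ψ ψ) - (EX U s (fun θ => cv (pw U s θ) ψ ψ) +
      ∫ r in (0:ℝ)..s, EX U r (fun θ => ∑ i, cv (pw U r θ) ψ (li (b i)) *
      cv (pw U r θ) ψ (li (b i)))) + s * ∑ k, (N [k] 0 0) ^ 2 =
      -((∫ r in (0:ℝ)..s, EX U r (fun θ => ∑ i, cv (pw U r θ) ψ (li (b i)) *
      cv (pw U r θ) ψ (li (b i)))) - s * ∑ k, (N [k] 0 0) ^ 2) := by ring
  have e5 : cv U ψ ψ = EX U s (fun θ => cv (pw U s θ) ψ ψ) +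
      ∫ r in (0:ℝ)..s, EX U r (fun θ => ∑ i, cv (pw U r θ) ψ (li (b i)) *
      cv (pw U r θ) ψ (li (b i))) := h
  rw [← e5, e5, e4, abs_neg]
  calc _ ≤ K * s * s := e3
    _ = _ := by rw [hK, e5]; ring

end sem

end Pool.Agent.H86.KN
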