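import Pool.Agent.H84.Sym.Defs
import Pool.Agent.H91.Sym.A1

/-!
# Base KN, part 1: iterated directional derivatives, Leibniz formula
-/

set_option autoImplicit false
set_option linter.unusedSectionVars false

open MeasureTheory Set Filter Topology
open scoped ContDiff

namespace Pool.Agent.H86.KN

open Pool.Agent.H84 Pool.Agent.H84.Sym

/-- all ways of splitting a list in two (complementary sublists) -/
def spl {α : Type} : List α → List (List α × List α)
  | [] => [([], [])]
  | v :: l => (spl l).map (fun p => (v :: p.1, p.2)) ++ (spl l).map (fun p => (p.1, v :: p.2))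

/-- all ways of splitting a list in two, the first part not empty -/
def spn {α : Type} : List α → List (List α × List α)
  | [] => []
  | v :: l => ([v], l) :: ((spn l).map (fun p => (v :: p.1, p.2)) ++
      (spn l).map (fun p => (p.1, v :: p.2)))

theorem spn_ne {α : Type} (l : List α) : ∀ p ∈ spn l, p.1 ≠ [] := by
  induction l with
  | nil => intro p hp; simp [spn] at hp
  | cons v l ih =>
    intro p hp
    simp only [spn, List.mem_cons, List.mem_append, List.mem_map] at hp
    rcases hp with h | ⟨q, hq, h⟩ | ⟨q, hq, h⟩
    · rw [h]; simp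
    · rw [← h]; simp
    · rw [← h]; exact ih q hq

theorem spn_length {α : Type} (l : List α) : ∀ p ∈ spn l, p.1.length + p.2.length = l.length := by
  induction l with
  | nil => intro p hp; simp [spn] at hp
  | cons v l ih =>
    intro p hp
    simp only [spn, List.mem_cons, List.mem_append, List.mem_map] at hp
    rcases hp with h | ⟨q, hq, h⟩ | ⟨q, hq, h⟩
    · rw [h]; simp; ring
    · rw [← h]; have := ih q hq; simp only [List.length_cons]; omega
    · rw [← h]; have := ih q hq; simp only [List.length_cons]; omega

theorem spl_eq {α M : Type} [AddCommMonoid M] (l : List α) (F : List α × List α → M) :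
    ((spl l).map F).sum = F ([], l) + ((spn l).map F).sum := by
  induction l generalizing F with
  | nil => simp [spl, spn]
  | cons v l ih =>
    simp only [spl, spn, List.map_append, List.map_map, List.sum_append, List.map_cons,
      List.sum_cons]
    have h1 := ih (F ∘ fun p => (v :: p.1, p.2))
    have h2 := ih (F ∘ fun p => (p.1, v :: p.2))
    rw [h1, h2]
    simp only [Function.comp_apply]
    abel

theorem spn_map {α β : Type} (f : α → β) (l : List α) :
    spn (l.map f) = (spn l).map (fun p => (p.1.map f, p.2.map f)) := by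
  induction l with
  | nil => simp [spn]
  | cons v l ih =>
    simp only [spn, List.map_cons, ih, List.map_append, List.map_map, List.map_nil]
    rfl

theorem spl_map {α β : Type} (f : α → β) (l : List α) :
    spl (l.map f) = (spl l).map (fun p => (p.1.map f, p.2.map f)) := by
  induction l with
  | nil => simp [spl]
  | cons v l ih =>
    simp only [spl, List.map_cons, ih, List.map_append, List.map_map]
    rfl

section

variable {E : Type} [NormedAddCommGroup E] [InnerProductSpace ℝ E]

/-- iterated directional derivative -/
noncomputable def DL : List E → (E → ℝ) → E → ℝ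
  | [], F => F
  | v :: l, F => D v (DL l F)

theorem DL_nil (F : E → ℝ) : DL [] F = F := rfl
theorem DL_cons (v : E) (l : List E) (F : E → ℝ) : DL (v :: l) F = D v (DL l F) := rfl

theorem DL_append (l l' : List E) (F : E → ℝ) : DL (l ++ l') F = DL l (DL l' F) := by
  induction l with
  | nil => rfl
  | cons v l ih => simp only [List.cons_append, DL_cons, ih]

/-- smooth functions -/
abbrev CS (F : E → ℝ) : Prop := ContDiff ℝ ∞ F

theorem CS.diff {F : E → ℝ} (hF : CS F) : Differentiable ℝ F :=
  hF.differentiable (by simp)

theorem CS.D {F : E → ℝ} (hF : CS F) (v : E) : CS (D v F) := by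
  unfold CS Pool.Agent.H84.Sym.D
  exact (hF.fderiv_right (m := ∞) (by simp)).clm_apply contDiff_const

theorem CS.DL {F : E → ℝ} (hF : CS F) (l : List E) : CS (DL l F) := by
  induction l with
  | nil => exact hF
  | cons v l ih => exact ih.D v

theorem D_add' {F G : E → ℝ} (hF : CS F) (hG : CS G) (v : E) :
    D v (fun x => F x + G x) = fun x => D v F x + D v G x := by
  funext x
  unfold D
  rw [fderiv_fun_add (hF.diff x) (hG.diff x)]
  rfl

theorem D_mul' {F G : E → ℝ} (hF : CS F) (hG : CS G) (v : E) :
    D v (fun x => F x * G x) = fun x => D v F x * G x + F x * D v G x := by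
  funext x
  unfold D
  rw [fderiv_fun_mul (hF.diff x) (hG.diff x)]
  simp only [add_apply, smul_apply, smul_eq_mul]
  ring

theorem D_const' (c : ℝ) (v : E) : D v (fun _ => c) = fun _ => 0 := by
  funext x
  unfold D
  simp

theorem D_const_mul' {F : E → ℝ} (hF : CS F) (c : ℝ) (v : E) :
    D v (fun x => c * F x) = fun x => c * D v F x := by
  funext x
  unfold D
  rw [fderiv_const_mul (hF.diff x)]
  simp

theorem D_sum' {κ : Type} (s : Finset κ) {F : κ → E → ℝ} (hF : ∀ i, CS (F i)) (v : E) :
    D v (fun x => ∑ i ∈ s, F i x) = fun x => ∑ i ∈ s, D v (F i) x := by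
  funext x
  unfold D
  rw [fderiv_fun_sum (fun i _ => (hF i).diff x)]
  simp

theorem CS.lsum {κ : Type} (L : List κ) {F : κ → E → ℝ} (hF : ∀ i ∈ L, CS (F i)) :
    CS (fun x => (L.map (fun i => F i x)).sum) := by
  induction L with
  | nil => simpa using contDiff_const
  | cons a L ih =>
    simp only [List.map_cons, List.sum_cons]
    exact (hF a (by simp)).add (ih fun i hi => hF i (by simp [hi]))

theorem D_lsum {κ : Type} (L : List κ) {F : κ → E → ℝ} (hF : ∀ i ∈ L, CS (F i)) (v : E) :
    D v (fun x => (L.map (fun i => F i x)).sum) = fun x => (L.map (fun i => D v (F i) x)).sum := by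
  induction L with
  | nil =>
    simp only [List.map_nil, List.sum_nil]
    exact D_const' 0 v
  | cons a L ih =>
    simp only [List.map_cons, List.sum_cons]
    rw [D_add' (hF a (by simp)) (CS.lsum L fun i hi => hF i (by simp [hi])) v,
      ih fun i hi => hF i (by simp [hi])]

/-- symmetry of the second derivatives -/
theorem D_comm {F : E → ℝ} (hF : CS F) (v w : E) : D v (D w F) = D w (D v F) := by
  funext x
  have hs : IsSymmSndFDerivAt ℝ F x :=
    (hF.contDiffAt (x := x)).isSymmSndFDerivAt (by simp only [minSmoothness_of_isRCLikeNormedField]; exact WithTop.coe_le_coe.2 le_top)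
  have hd : DifferentiableAt ℝ (fderiv ℝ F) x :=
    ((hF.fderiv_right (m := ∞) (by simp)).differentiable (by simp)) x
  have key : ∀ a b : E, D a (D b F) x = fderiv ℝ (fderiv ℝ F) x a b := by
    intro a b
    have : D b F = fun y => fderiv ℝ F y b := rfl
    unfold Pool.Agent.H84.Sym.D
    rw [fderiv_clm_apply hd (differentiableAt_const b)]
    simp
  rw [key v w, key w v]
  exact hs.eq v w

theorem DL_D {F : E → ℝ} (hF : CS F) (l : List E) (v : E) : DL l (D v F) = D v (DL l F) := by
  induction l with
  | nil => rfl
  | cons w l ih => rw [DL_cons, DL_cons, ih, D_comm (hF.DL l)]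

theorem DL_perm {F : E → ℝ} (hF : CS F) {l l' : List E} (h : l.Perm l') : DL l F = DL l' F := by
  induction h with
  | nil => rfl
  | cons v _ ih => rw [DL_cons, DL_cons, ih]
  | swap v w l => simp only [DL_cons]; exact D_comm (hF.DL l) w v
  | trans _ _ ih1 ih2 => rw [ih1, ih2]

/-- Leibniz formula -/
theorem DL_mul {F G : E → ℝ} (hF : CS F) (hG : CS G) (l : List E) :
    DL l (fun x => F x * G x) = fun x => ((spl l).map (fun p => DL p.1 F x * DL p.2 G x)).sum := by
  induction l with
  | nil => funext x; simp [spl, DL_nil]
  | cons v l ih =>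
    rw [DL_cons, ih, D_lsum _ (fun p _ => (hF.DL p.1).mul (hG.DL p.2))]
    funext x
    simp only [spl, List.map_append, List.map_map, List.sum_append]
    have h : ∀ p : List E × List E, D v (fun x => DL p.1 F x * DL p.2 G x) x =
        DL (v :: p.1) F x * DL p.2 G x + DL p.1 F x * DL (v :: p.2) G x := by
      intro p
      rw [D_mul' (hF.DL p.1) (hG.DL p.2)]
      rfl
    simp only [h]
    rw [List.sum_map_add]
    rfl

theorem DL_add {F G : E → ℝ} (hF : CS F) (hG : CS G) (l : List E) :
    DL l (fun x => F x + G x) = fun x => DL l F x + DL l G x := by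
  induction l with
  | nil => rfl
  | cons v l ih => rw [DL_cons, ih, D_add' (hF.DL l) (hG.DL l)]; rfl

theorem DL_const_mul {F : E → ℝ} (hF : CS F) (c : ℝ) (l : List E) :
    DL l (fun x => c * F x) = fun x => c * DL l F x := by
  induction l with
  | nil => rfl
  | cons v l ih => rw [DL_cons, ih, D_const_mul' (hF.DL l)]; rfl

theorem DL_const (c : ℝ) (l : List E) (hl : l ≠ []) : DL l (fun _ : E => c) = fun _ => 0 := by
  induction l with
  | nil => exact absurd rfl hl
  | cons v l ih =>
    rw [DL_cons]
    by_cases h : l = []
    · rw [h, DL_nil]; exact D_const' c v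
    · rw [ih h]; exact D_const' 0 v

theorem DL_sum {κ : Type} (s : Finset κ) {F : κ → E → ℝ} (hF : ∀ i, CS (F i)) (l : List E) :
    DL l (fun x => ∑ i ∈ s, F i x) = fun x => ∑ i ∈ s, DL l (F i) x := by
  induction l with
  | nil => rfl
  | cons v l ih => rw [DL_cons, ih, D_sum' s (fun i => (hF i).DL l)]; rfl

/-- translations -/
theorem DL_shift (F : E → ℝ) (l : List E) (a : E) :
    DL l (fun x => F (a + x)) = fun x => DL l F (a + x) := by
  induction l with
  | nil => rfl
  | cons v l ih =>
    rw [DL_cons, ih]
    funext x
    rw [DL_cons]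
    unfold Pool.Agent.H84.Sym.D
    rw [fderiv_comp_add_left]

/-- linearity in a direction -/
theorem DL_lin {F : E → ℝ} (hF : CS F) (l l' : List E) {κ : Type} (s : Finset κ) (c : κ → ℝ)
    (e : κ → E) : DL (l ++ (∑ k ∈ s, c k • e k) :: l') F =
      fun x => ∑ k ∈ s, c k * DL (l ++ e k :: l') F x := by
  induction l with
  | nil =>
    simp only [List.nil_append, DL_cons]
    funext x
    unfold Pool.Agent.H84.Sym.D
    simp
  | cons v l ih =>
    simp only [List.cons_append, DL_cons]
    rw [ih, D_sum' s (fun k => contDiff_const.mul (hF.DL _))]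
    funext x
    refine Finset.sum_congr rfl fun k _ => ?_
    rw [D_const_mul' (hF.DL _)]

end

end Pool.Agent.H86.KN
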